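import Mathlib

set_option autoImplicit false

namespace Pool.Agent.Results.MP_e06427_co.Counter

/-- `G` is `k`-critical: chromatic number `k`, and every proper subgraph has a smaller one. -/
def Critical {n : ℕ} (k : ℕ) (G : SimpleGraph (Fin n)) : Prop :=
  G.chromaticNumber = k ∧ ∀ G' : G.Subgraph, G' ≠ ⊤ → G'.coe.chromaticNumber < k

def rows : List ℕ := [960, 928, 792, 628, 364, 730, 441, 867, 215, 175]

theorem rows_symm : ∀ a b : Fin 10, (rows.getD a 0).testBit b = true →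
    (rows.getD b 0).testBit a = true := by decide +kernel

def A : SimpleGraph (Fin 10) where
  Adj a b := (rows.getD a 0).testBit b = true
  symm := ⟨rows_symm⟩
  loopless := ⟨by decide +kernel⟩

instance : DecidableRel A.Adj := fun a b =>
  inferInstanceAs (Decidable ((rows.getD a 0).testBit b = true))

def tab : List ℕ := [0, 0, 0, 0, 0, 0, 740928, 728596, 824212, 236692, 0, 0, 0, 0, 0, 897600, 0, 946564, 897604, 447364, 0, 0, 0, 948480, 948288, 0, 0, 0, 898576, 499216, 0, 0, 948480, 0, 948544, 898624, 1020484, 0, 0, 709508, 0, 0, 948288, 948544, 0, 1020052, 749120, 0, 1020804, 0, 0, 897600, 0, 898624, 1020052, 0, 1021456, 947344, 0, 1023504, 740928, 0, 0, 1020484, 749120, 1021456, 0, 744976, 1029648, 0, 728596, 946564, 0, 0, 0, 947344, 744976, 0, 963728, 761360, 824212, 897604, 898576, 0, 1020804, 0, 1029648, 963728, 0, 0, 236692, 447364, 499216, 709508, 0, 1023504, 0, 761360, 0, 0]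

def col (a b v : Fin 10) : Fin 4 := ⟨tab.getD (a * 10 + b) 0 / 4 ^ (v : ℕ) % 4, Nat.mod_lt _ (by norm_num)⟩

theorem col_ok : ∀ a b : Fin 10, A.Adj a b → ∀ u v : Fin 10, A.Adj u v →
    col a b u = col a b v → (u = a ∧ v = b) ∨ (u = b ∧ v = a) := by decide +kernel

theorem noiso : ∀ a : Fin 10, ∃ b, A.Adj a b := by decide +kernel

set_option synthInstance.maxSize 4000 in
theorem key0 : ∀ c5 : Fin 4, 
    ∀ c6 : Fin 4, c5 ≠ c6 → 
    ∀ c4 : Fin 4, c4 ≠ c5 → c4 ≠ c6 → 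
    ∀ c3 : Fin 4, c3 ≠ c5 → c3 ≠ c6 → c3 ≠ c4 → 
    ∀ c2 : Fin 4, c2 ≠ c4 → c2 ≠ c3 → 
    ∀ c7 : Fin 4, c6 ≠ c7 → 
    ∀ c0 : Fin 4, c0 ≠ c6 → c0 ≠ c7 → 
    ∀ c1 : Fin 4, c1 ≠ c5 → c1 ≠ c7 → 
    ∀ c8 : Fin 4, c6 ≠ c8 → c4 ≠ c8 → c2 ≠ c8 → c7 ≠ c8 → c0 ≠ c8 → c1 ≠ c8 → 
    ∀ c9 : Fin 4, c3 ≠ c9 → c2 ≠ c9 → c7 ≠ c9 → c0 ≠ c9 → c1 ≠ c9 → 
    (c5 ≠ c7 ∧ c9 = c5) ∨ (c5 = c7 ∧ c9 = c6) := by decide +kernel

theorem key (c : Fin 10 → Fin 4)
    (h : ∀ u v, A.Adj u v → s(u, v) ≠ s(5, 9) → s(u, v) ≠ s(5, 7) → c u ≠ c v) :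
    (c 5 ≠ c 7 ∧ c 9 = c 5) ∨ (c 5 = c 7 ∧ c 9 = c 6) :=
  key0 (c 5) 
    (c 6) (h 5 6 (by decide) (by decide) (by decide)) 
    (c 4) (h 4 5 (by decide) (by decide) (by decide)) (h 4 6 (by decide) (by decide) (by decide)) 
    (c 3) (h 3 5 (by decide) (by decide) (by decide)) (h 3 6 (by decide) (by decide) (by decide)) (h 3 4 (by decide) (by decide) (by decide)) 
    (c 2) (h 2 4 (by decide) (by decide) (by decide)) (h 2 3 (by decide) (by decide) (by decide)) 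
    (c 7) (h 6 7 (by decide) (by decide) (by decide)) 
    (c 0) (h 0 6 (by decide) (by decide) (by decide)) (h 0 7 (by decide) (by decide) (by decide)) 
    (c 1) (h 1 5 (by decide) (by decide) (by decide)) (h 1 7 (by decide) (by decide) (by decide)) 
    (c 8) (h 6 8 (by decide) (by decide) (by decide)) (h 4 8 (by decide) (by decide) (by decide)) (h 2 8 (by decide) (by decide) (by decide)) (h 7 8 (by decide) (by decide) (by decide)) (h 0 8 (by decide) (by decide) (by decide)) (h 1 8 (by decide) (by decide) (by decide)) 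
    (c 9) (h 3 9 (by decide) (by decide) (by decide)) (h 2 9 (by decide) (by decide) (by decide)) (h 7 9 (by decide) (by decide) (by decide)) (h 0 9 (by decide) (by decide) (by decide)) (h 1 9 (by decide) (by decide) (by decide)) 
    

def c5 : Fin 10 → Fin 5 := ![0, 0, 0, 1, 2, 3, 4, 1, 3, 2]

theorem critA : Critical 5 A := by
  constructor
  · have h5 : A.Colorable 5 := ⟨SimpleGraph.Coloring.mk c5 (by
      have : ∀ u v : Fin 10, A.Adj u v → c5 u ≠ c5 v := by decide +kernel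
      intro u v h; exact this u v h)⟩
    have h4 : ¬ A.Colorable 4 := by
      rintro ⟨C⟩
      rcases key C (fun u v h _ _ => C.valid h) with h | h
      · exact C.valid (show A.Adj 9 5 by decide) h.2
      · exact C.valid (show A.Adj 5 7 by decide) h.1
    refine le_antisymm h5.chromaticNumber_le ?_
    by_contra hlt
    push Not at hlt
    refine h4 (SimpleGraph.chromaticNumber_le_iff_colorable.1 ?_)
    exact Order.le_of_lt_succ hlt
  · intro G' hG'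
    have : ∃ a b, A.Adj a b ∧ ¬ G'.Adj a b := by
      by_contra hne
      push Not at hne
      apply hG'
      refine SimpleGraph.Subgraph.ext ?_ ?_
      · ext a
        obtain ⟨b, hb⟩ := noiso a
        simpa using G'.edge_vert (hne a b hb)
      · ext a b
        exact ⟨fun h => G'.adj_sub h, fun h => hne a b h⟩
    obtain ⟨a, b, hab, hn⟩ := this
    have h4 : G'.coe.Colorable 4 := ⟨SimpleGraph.Coloring.mk (fun v => col a b v.1) (by
      intro u v huv e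
      have huv' : G'.Adj u.1 v.1 := huv
      rcases col_ok a b hab u.1 v.1 (G'.adj_sub huv') e with h | h
      · exact hn (h.1 ▸ h.2 ▸ huv')
      · exact hn (h.1 ▸ h.2 ▸ huv'.symm))⟩
    exact lt_of_le_of_lt h4.chromaticNumber_le (by exact_mod_cast (by norm_num : (4 : ℕ) < 5))

def q1 (v : Fin 10) : Fin 17 := ⟨v.val, by omega⟩
def q2 (v : Fin 10) : Fin 17 :=
  ⟨if v.val < 5 then v.val + 10 else if v.val < 8 then v.val else v.val + 7, by
    split_ifs <;> omega⟩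

theorem q1_inj : ∀ a b, q1 a = q1 b → a = b := by decide +kernel
theorem q2_inj : ∀ a b, q2 a = q2 b → a = b := by decide +kernel

def p1 : Fin 10 ↪ Fin 17 := ⟨q1, q1_inj⟩
def p2 : Fin 10 ↪ Fin 17 := ⟨q2, q2_inj⟩

theorem e5 : p2 5 = p1 5 := by decide +kernel
theorem e6 : p2 6 = p1 6 := by decide +kernel
theorem e7 : p2 7 = p1 7 := by decide +kernel
theorem e9 : p1 9 ≠ p2 9 := by decide +kernel

theorem imp (p : Fin 10 ↪ Fin 17) (u v : Fin 10) (h : s(p u, p v) = s(p 5, p 7)) :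
    s(u, v) = s(5, 7) := by
  rw [Sym2.eq_iff] at h ⊢
  simpa using h

theorem ne9 : s(p1 9, p2 9) ≠ s(p1 5, p1 7) := by
  rw [Ne, Sym2.eq_iff]; decide +kernel

theorem ne57 : s((5 : Fin 10), (7 : Fin 10)) ≠ s(5, 9) := by
  rw [Ne, Sym2.eq_iff]; decide +kernel

theorem clq : A.IsNClique 3 {5, 6, 7} :=
  SimpleGraph.is3Clique_triple_iff.2 (by decide +kernel)

theorem mp : ({5, 6, 7} : Finset (Fin 10)).map p1 = ({5, 6, 7} : Finset (Fin 10)).map p2 := by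
  simp [e5, e6, e7]

theorem ov : ∀ a b, p1 a = p2 b → a ∈ ({5, 6, 7} : Finset (Fin 10)) := by decide +kernel
theorem cov : ∀ v, (∃ a, p1 a = v) ∨ ∃ b, p2 b = v := by decide +kernel

def D : SimpleGraph (Fin 17) where
  Adj u v := (∃ a b, A.Adj a b ∧ s(a, b) ≠ s(5, 9) ∧ u = p1 a ∧ v = p1 b) ∨
    (∃ a b, A.Adj a b ∧ s(a, b) ≠ s(5, 9) ∧ u = p2 a ∧ v = p2 b) ∨ s(u, v) = s(p1 9, p2 9)
  symm := ⟨by
    rintro u v (⟨a, b, h1, h2, h3, h4⟩ | ⟨a, b, h1, h2, h3, h4⟩ | h)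
    · exact Or.inl ⟨b, a, h1.symm, by rwa [Sym2.eq_swap], h4, h3⟩
    · exact Or.inr (Or.inl ⟨b, a, h1.symm, by rwa [Sym2.eq_swap], h4, h3⟩)
    · exact Or.inr (Or.inr (by rwa [Sym2.eq_swap]))⟩
  loopless := ⟨by
    rintro u (⟨a, b, h1, -, h3, h4⟩ | ⟨a, b, h1, -, h3, h4⟩ | h)
    · exact h1.ne (p1.injective (h3.symm.trans h4))
    · exact h1.ne (p2.injective (h3.symm.trans h4))
    · rw [Sym2.eq_iff] at h
      rcases h with h | h
      · exact e9 (h.1.symm.trans h.2)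
      · exact e9 (h.2.symm.trans h.1)⟩

theorem adj57 : D.Adj (p1 5) (p1 7) := Or.inl ⟨5, 7, by decide +kernel, ne57, rfl, rfl⟩

theorem noCol (c : Fin 17 → Fin 4)
    (hc : ∀ u v : Fin 17, D.Adj u v → s(u, v) ≠ s(p1 5, p1 7) → c u ≠ c v) : False := by
  have k1 := key (fun v => c (p1 v)) (fun u v h a b =>
    hc _ _ (Or.inl ⟨u, v, h, a, rfl, rfl⟩) (fun e => b (imp p1 u v e)))
  have k2 := key (fun v => c (p2 v)) (fun u v h a b =>
    hc _ _ (Or.inr (Or.inl ⟨u, v, h, a, rfl, rfl⟩))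
      (fun e => b (imp p2 u v (by rw [e5, e7]; exact e))))
  have k3 := hc (p1 9) (p2 9) (Or.inr (Or.inr rfl)) ne9
  simp only [e5, e6, e7] at k2
  rcases k1 with k1 | k1 <;> rcases k2 with k2 | k2
  · exact k3 (k1.2.trans k2.2.symm)
  · exact k1.1 k2.1
  · exact k2.1 k1.1
  · exact k3 (k1.2.trans k2.2.symm)

theorem del_col {n : ℕ} (G : SimpleGraph (Fin n)) (x y : Fin n) (hxy : G.Adj x y)
    (h : Critical 5 G) :
    ∃ c : Fin n → Fin 4, ∀ u v, G.Adj u v → s(u, v) ≠ s(x, y) → c u ≠ c v := by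
  have h1 := h.2 ((⊤ : G.Subgraph).deleteEdges {s(x, y)}) (by
    intro e
    have : ((⊤ : G.Subgraph).deleteEdges {s(x, y)}).Adj x y := by
      rw [e]; exact hxy
    simp at this)
  obtain ⟨C⟩ := SimpleGraph.chromaticNumber_le_iff_colorable.1
    (show _ ≤ ((4 : ℕ) : ℕ∞) from Order.le_of_lt_succ h1)
  exact ⟨fun u => C ⟨u, trivial⟩, fun u v huv hne => C.valid (by
    simp only [SimpleGraph.Subgraph.coe_adj, SimpleGraph.Subgraph.deleteEdges_adj]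
    exact ⟨huv, hne⟩)⟩

theorem notCrit : ¬ Critical 5 D := fun h =>
  (del_col D _ _ adj57 h).elim noCol

theorem result : ∃ (k h n₁ n₂ n : ℕ) (G₁ : SimpleGraph (Fin n₁)) (G₂ : SimpleGraph (Fin n₂))
    (H₁ : Finset (Fin n₁)) (H₂ : Finset (Fin n₂)) (x₁ y₁ : Fin n₁) (x₂ y₂ : Fin n₂)
    (φ₁ : Fin n₁ ↪ Fin n) (φ₂ : Fin n₂ ↪ Fin n) (G : SimpleGraph (Fin n)),
    4 ≤ k ∧ 1 ≤ h ∧ h + 2 ≤ k ∧ Critical k G₁ ∧ Critical k G₂ ∧
    G₁.IsNClique h H₁ ∧ G₂.IsNClique h H₂ ∧ x₁ ∈ H₁ ∧ x₂ ∈ H₂ ∧ y₁ ∉ H₁ ∧ y₂ ∉ H₂ ∧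
    G₁.Adj x₁ y₁ ∧ G₂.Adj x₂ y₂ ∧
    H₁.map φ₁ = H₂.map φ₂ ∧ φ₁ x₁ = φ₂ x₂ ∧ (∀ a b, φ₁ a = φ₂ b → a ∈ H₁) ∧
    (∀ v, (∃ a, φ₁ a = v) ∨ ∃ b, φ₂ b = v) ∧
    (∀ u v, G.Adj u v ↔
      (∃ a b, G₁.Adj a b ∧ s(a, b) ≠ s(x₁, y₁) ∧ u = φ₁ a ∧ v = φ₁ b) ∨
      (∃ a b, G₂.Adj a b ∧ s(a, b) ≠ s(x₂, y₂) ∧ u = φ₂ a ∧ v = φ₂ b) ∨
      s(u, v) = s(φ₁ y₁, φ₂ y₂)) ∧
    ¬ Critical k G :=
  ⟨5, 3, 10, 10, 17, A, A, {5, 6, 7}, {5, 6, 7}, 5, 9, 5, 9, p1, p2, D, by norm_num, by norm_num,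
    by norm_num, critA, critA, clq, clq, by decide +kernel, by decide +kernel,
    by decide +kernel, by decide +kernel, by decide +kernel, by decide +kernel, mp, e5.symm, ov,
    cov, fun _ _ => Iff.rfl, notCrit⟩

end Pool.Agent.Results.MP_e06427_co.Counter
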